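import Pool.Agent.Lib.MP_079fc8_co.Orb3
import Pool.Agent.Lib.MP_079fc8_co.Ivo5
import Pool.Agent.Lib.MP_079fc8_co.Ivo6

/-!
MP_079fc8_co.  Subgroups with fixed points and lattice triangulations of hypersimplices; groups of
prime order.
-/

set_option autoImplicit false

namespace Pool.Agent.Results.MP_079fc8_co.PointStabilizers

open Finset

/-- The hypersimplex: the points of the unit cube whose coordinates have sum `k`. -/
def hypersimplex (k n : ℕ) : Set (Fin n → ℝ) :=
  {x | (∀ i, 0 ≤ x i ∧ x i ≤ 1) ∧ ∑ i, x i = (k : ℝ)}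

/-- The action of a permutation of the indices on points: the `i`-th unit vector goes to the
`σ i`-th unit vector. -/
def permute {n : ℕ} (σ : Equiv.Perm (Fin n)) (x : Fin n → ℝ) : Fin n → ℝ :=
  fun i => x (σ.symm i)

/-- A lattice triangulation of the hypersimplex: a geometric simplicial complex (any two simplices
meet in the convex hull of their common vertices) whose simplices have integral vertices and whose
union is the hypersimplex. -/
def IsLatticeTriangulation (k n : ℕ) (K : Geometry.SimplicialComplex ℝ (Fin n → ℝ)) : Prop :=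
  K.space = hypersimplex k n ∧ ∀ s ∈ K.faces, ∀ x ∈ s, ∀ i, ∃ m : ℤ, x i = m

/-- Invariance of a triangulation: each permutation in `G` maps simplices to simplices. -/
def Invariant {n : ℕ} (G : Subgroup (Equiv.Perm (Fin n)))
    (K : Geometry.SimplicialComplex ℝ (Fin n → ℝ)) : Prop :=
  ∀ σ ∈ G, ∀ s ∈ K.faces, s.image (permute σ) ∈ K.faces

/-- The hypersimplex has a lattice triangulation invariant under `G`. -/
def HasInvariantTriangulation (k n : ℕ) (G : Subgroup (Equiv.Perm (Fin n))) : Prop :=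
  ∃ K : Geometry.SimplicialComplex ℝ (Fin n → ℝ), IsLatticeTriangulation k n K ∧ Invariant G K

/-- The index `d` is fixed by all permutations in `H`. -/
def Fixed {n : ℕ} (H : Subgroup (Equiv.Perm (Fin n))) (d : Fin n) : Prop := ∀ g ∈ H, g d = d

/-- Some element of `H` maps any two-element subset of `Y` to any other. -/
def TwoHomogeneousOn {n : ℕ} (H : Subgroup (Equiv.Perm (Fin n))) (Y : Set (Fin n)) : Prop :=
  ∀ a ∈ Y, ∀ b ∈ Y, ∀ c ∈ Y, ∀ d ∈ Y, a ≠ b → c ≠ d →
    ∃ g ∈ H, (g a = c ∧ g b = d) ∨ (g a = d ∧ g b = c)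

/-- Necessity, for subgroups with fixed indices. -/
theorem necessary (n k : ℕ) (hk : 2 ≤ k) (hkn : k + 2 ≤ n) (G : Subgroup (Equiv.Perm (Fin n)))
    (hG : HasInvariantTriangulation k n G) (H : Subgroup (Equiv.Perm (Fin n))) (hHG : H ≤ G) :
    ((3 ≤ {d | Fixed H d}.ncard ∨ k ≤ {d | Fixed H d}.ncard + 1 ∨
        n ≤ {d | Fixed H d}.ncard + k + 1) → ∀ a : Fin n, (MulAction.orbit H a).ncard ≤ 2) ∧
    (1 ≤ {d | Fixed H d}.ncard → ∀ p : ℕ, p.Prime → p ≠ 2 → p ∣ Nat.card H →
      (p ∣ n - 2 ∧ p ∣ k - 1) ∨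
        ({d | Fixed H d}.ncard = 1 ∧ p ∣ n - 1 ∧ (p ∣ k ∨ p ∣ k - 1))) ∧
    (∀ (d a : Fin n) (I : Finset (Fin n)) (j : ℕ), Fixed H d → d ∉ I →
      (∀ g ∈ H, ∀ i ∈ I, g i ∈ I) → Disjoint (MulAction.orbit H a) (I : Set (Fin n)) →
      I.card + j = k → 2 ≤ j → j + 1 ≤ (MulAction.orbit H a).ncard →
        ¬ Nat.Coprime (MulAction.orbit H a).ncard j ∧
        ¬ Nat.Coprime (MulAction.orbit H a).ncard (j - 1) ∧
        ¬ TwoHomogeneousOn H (MulAction.orbit H a)) := by
  obtain ⟨K, ⟨hsp, hint⟩, hinv⟩ := hG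
  have hT : Lib.MP079fc8.Tri k (H : Set (Equiv.Perm (Fin n))) K.faces :=
    Lib.MP079fc8.tri_of (by omega) (H : Set (Equiv.Perm (Fin n))) K hsp hint
      fun g hg => hinv g (hHG hg)
  have hF : {d | Fixed H d}.ncard = (Lib.MP079fc8.fx H).card := by
    rw [← Set.ncard_coe_finset]
    congr 1
    ext d
    rw [Finset.mem_coe, Lib.MP079fc8.mem_fx]
    rfl
  have hkn' : k + 2 ≤ Fintype.card (Fin n) := by rwa [Fintype.card_fin]
  rw [hF]
  refine ⟨?_, ?_, ?_⟩
  · intro hf a
    rw [← Lib.MP079fc8.card_orb]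
    rcases hf with hf | hf | hf
    · exact Lib.MP079fc8.orb_three hT hk hkn' hf a
    · exact Lib.MP079fc8.orb_k hT hk (D := Lib.MP079fc8.fx H)
        (fun d hd => Lib.MP079fc8.mem_fx.1 hd) hf a
    · exact Lib.MP079fc8.orb_nk hT hkn' (D := Lib.MP079fc8.fx H)
        (fun d hd => Lib.MP079fc8.mem_fx.1 hd) (by rwa [Fintype.card_fin]) a
  · intro hf p hp hp2 hpH
    have h1 := Lib.MP079fc8.primes_of hp hp2 hT hk hkn' hpH hf
    rwa [Fintype.card_fin] at h1
  · intro d a I j hd hdI hI hdis hj h2 h3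
    rw [← Lib.MP079fc8.coe_orb, Finset.disjoint_coe] at hdis
    rw [← Lib.MP079fc8.card_orb] at h3 ⊢
    obtain ⟨h4, h5, h6⟩ := Lib.MP079fc8.orb_main hT hI hdis hdI hd hj h2 h3
    refine ⟨h4, h5, fun h7 => h6 ?_⟩
    intro b hb c hc e he f hf
    rw [← Finset.mem_coe, Lib.MP079fc8.coe_orb] at hb hc he hf
    exact h7 b hb c hc e he f hf

/-- The two ways of writing a triangulation. -/
theorem has_of {k n : ℕ} {G : Subgroup (Equiv.Perm (Fin n))}
    (h : ∃ T : Lib.HyS.LatticeTriangulation k n, Lib.HyS.Invariant G T) :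
    HasInvariantTriangulation k n G := by
  classical
  obtain ⟨T, hT⟩ := h
  refine ⟨T.K, ⟨T.space_eq, fun s hs x hx i => ?_⟩, fun σ hσ s hs => ?_⟩
  · refine T.lattice x ?_ i
    have h1 : ({x} : Finset (Fin n → ℝ)) ∈ T.K.faces :=
      T.K.down_closed hs (singleton_subset_iff.2 hx) (singleton_nonempty x)
    exact h1
  · obtain ⟨t, ht, hts⟩ := hT σ hσ s hs
    have h1 : s.image (permute σ) = t := by
      rw [← coe_inj, coe_image, hts]
      rfl
    rw [h1]
    exact ht

/-- Groups of order two. -/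
theorem order_two {n k : ℕ} (hk : 0 < k) (G : Subgroup (Equiv.Perm (Fin n)))
    (hG : Nat.card G = 2) : HasInvariantTriangulation k n G := by
  obtain ⟨y, hy, huniq⟩ := (Nat.card_eq_two_iff' (1 : G)).1 hG
  have hall : ∀ τ ∈ G, τ = 1 ∨ τ = (y : Equiv.Perm (Fin n)) := by
    intro τ hτ
    by_cases h : τ = 1
    · exact Or.inl h
    · right
      have h1 := huniq ⟨τ, hτ⟩ (fun h2 => h (congrArg Subtype.val h2))
      exact congrArg Subtype.val h1
  have hinv : ∀ i, (y : Equiv.Perm (Fin n)) ((y : Equiv.Perm (Fin n)) i) = i := by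
    intro i
    have h1 : (y : Equiv.Perm (Fin n)) * y ∈ G := G.mul_mem y.2 y.2
    have h2 : (y : Equiv.Perm (Fin n)) * y = 1 := by
      rcases hall _ h1 with h | h
      · exact h
      · exact absurd (Subtype.ext (mul_eq_left.1 h) : y = 1) hy
    exact congrArg (fun g : Equiv.Perm (Fin n) => g i) h2
  exact has_of (Lib.MP079fc8.invo_exists hk _ hinv G hall)

/-- Let `2 ≤ k ≤ n - 2`, and let `G` be a group of permutations of the `n` indices.

Suppose that the hypersimplex has a lattice triangulation invariant under `G`, and let `H` be a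
subgroup of `G`; let `f` be the number of indices fixed by `H`.

* If `f ≥ 3`, or `f ≥ k - 1`, or `f ≥ n - k - 1`, then all orbits of `H` on the indices have length
  at most two.
* If `f ≥ 1` and `p` is an odd prime dividing the order of `H`, then `p` divides `n - 2` and
  `k - 1`, or `f = 1` and `p` divides `n - 1` and one of `k`, `k - 1`.
* In general: suppose that `H` fixes `d`, let `Y` be an orbit of `H` of length `u`, let `I` be a set
  of indices which is invariant under `H`, does not meet `Y` and does not contain `d`, and suppose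
  that `|I| + j = k` with `2 ≤ j ≤ u - 1`. Then `u` is coprime neither to `j` nor to `j - 1`, and
  `H` is not transitive on the two-element subsets of `Y`.

Let the order of `G` be a prime `p`, and let `f` be the number of indices fixed by `G`. If `p = 2`,
or if neither (`f = 1` and `p` divides `k (k - 1)`) nor (`f = 2` and `p` divides `k - 1`), then the
hypersimplex has a lattice triangulation invariant under `G` if and only if `p = 2` or `f = 0`. -/
theorem result (n k : ℕ) (hk : 2 ≤ k) (hkn : k + 2 ≤ n) (G : Subgroup (Equiv.Perm (Fin n))) :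
    (HasInvariantTriangulation k n G → ∀ H : Subgroup (Equiv.Perm (Fin n)), H ≤ G →
      ((3 ≤ {d | Fixed H d}.ncard ∨ k ≤ {d | Fixed H d}.ncard + 1 ∨
          n ≤ {d | Fixed H d}.ncard + k + 1) → ∀ a : Fin n, (MulAction.orbit H a).ncard ≤ 2) ∧
      (1 ≤ {d | Fixed H d}.ncard → ∀ p : ℕ, p.Prime → p ≠ 2 → p ∣ Nat.card H →
        (p ∣ n - 2 ∧ p ∣ k - 1) ∨
          ({d | Fixed H d}.ncard = 1 ∧ p ∣ n - 1 ∧ (p ∣ k ∨ p ∣ k - 1))) ∧
      (∀ (d a : Fin n) (I : Finset (Fin n)) (j : ℕ), Fixed H d → d ∉ I →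
        (∀ g ∈ H, ∀ i ∈ I, g i ∈ I) → Disjoint (MulAction.orbit H a) (I : Set (Fin n)) →
        I.card + j = k → 2 ≤ j → j + 1 ≤ (MulAction.orbit H a).ncard →
          ¬ Nat.Coprime (MulAction.orbit H a).ncard j ∧
          ¬ Nat.Coprime (MulAction.orbit H a).ncard (j - 1) ∧
          ¬ TwoHomogeneousOn H (MulAction.orbit H a))) ∧
    ((Nat.card G).Prime →
      (Nat.card G = 2 ∨ (¬ ({d | Fixed G d}.ncard = 1 ∧ Nat.card G ∣ k * (k - 1)) ∧
        ¬ ({d | Fixed G d}.ncard = 2 ∧ Nat.card G ∣ k - 1))) →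
      (HasInvariantTriangulation k n G ↔ (Nat.card G = 2 ∨ {d | Fixed G d}.ncard = 0))) := by
  refine ⟨fun hG H hHG => necessary n k hk hkn G hG H hHG, fun hp hex => ⟨fun hG => ?_, ?_⟩⟩
  · by_contra hcon
    rw [not_or] at hcon
    obtain ⟨hp2, hf0⟩ := hcon
    obtain ⟨hex1, hex2⟩ := hex.resolve_left hp2
    obtain ⟨h1, h2, -⟩ := necessary n k hk hkn G hG G le_rfl
    have hf1 : 1 ≤ {d | Fixed G d}.ncard := Nat.one_le_iff_ne_zero.2 hf0
    rcases h2 hf1 _ hp hp2 dvd_rfl with ⟨-, h3⟩ | ⟨h3, -, h4⟩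
    · have hne1 : {d | Fixed G d}.ncard ≠ 1 := fun h => hex1 ⟨h, h3.mul_left k⟩
      have hne2 : {d | Fixed G d}.ncard ≠ 2 := fun h => hex2 ⟨h, h3⟩
      have h5 := h1 (Or.inl (by omega))
      have h6 : G = ⊥ := by
        rw [eq_bot_iff]
        intro g hg
        rw [Subgroup.mem_bot]
        ext1 a
        have h7 := Lib.MP079fc8.orb_dvd G a
        have h8 := h5 a
        rw [← Lib.MP079fc8.card_orb] at h8
        have h9 : (Lib.MP079fc8.orb G a).card = 1 := by
          rcases (Nat.dvd_prime hp).1 h7 with h | h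
          · exact h
          · have := hp.two_le
            omega
        obtain ⟨b, hb⟩ := card_eq_one.1 h9
        have ha : a ∈ Lib.MP079fc8.orb G a := Lib.MP079fc8.mem_orb.2 ⟨1, G.one_mem, rfl⟩
        have hga : g a ∈ Lib.MP079fc8.orb G a := Lib.MP079fc8.mem_orb.2 ⟨g, hg, rfl⟩
        rw [hb, mem_singleton] at ha hga
        rw [hga, ← ha]
        rfl
      have h7 : Nat.card G = 1 := by
        rw [h6]
        exact Subgroup.card_bot
      rw [h7] at hp
      exact Nat.not_prime_one hp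
    · apply hex1
      refine ⟨h3, ?_⟩
      rcases h4 with h4 | h4
      · exact h4.mul_right _
      · exact h4.mul_left _
  · rintro (h2 | h0)
    · exact order_two (by omega) G h2
    · refine has_of (Lib.MP079fc8.free_exists k G hp ?_)
      rintro ⟨i, hi⟩
      have hfin : {d | Fixed G d}.Finite := Set.toFinite _
      rw [Set.ncard_eq_zero hfin] at h0
      have : i ∈ {d | Fixed G d} := hi
      rw [h0] at this
      exact this

end Pool.Agent.Results.MP_079fc8_co.PointStabilizers
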