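import Pool.Agent.Lib.HyS.TwoTr
import Pool.Agent.Lib.HyS.BurD
import Pool.Agent.Lib.HyS.Aff
import Pool.Agent.Lib.HyS2.Ind2
import Pool.Agent.Lib.HyS.Alc
import Pool.Agent.Lib.HyS.Conj
import Pool.Agent.Lib.HyS.PrE

/-!
# MP_079fc8_co: transitive actions of prime degree
-/

namespace Pool.Agent.Results.MP_079fc8_co.PrimeDegree

open Pool.Agent.Lib.HyS

/-- Transitive groups of prime degree. -/
theorem prime_case {k n : ℕ} (hk : 2 ≤ k) (hkn : k + 2 ≤ n) (hn : n.Prime)
    (T : LatticeTriangulation k n) {G : Subgroup (Equiv.Perm (Fin n))} (hT : Invariant G T)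
    (htr : MulAction.IsPretransitive G (Fin n)) :
    (∃ ρ : Fin n ≃ ZMod n, ∀ σ ∈ G, ∃ a b : ZMod n, ∀ i, ρ (σ i) = a * ρ i + b) ∧
      (Nat.card G ∣ n * k ∨ Nat.card G ∣ n * (k - 1)) := by
  obtain ⟨ρ, hτ, haff⟩ := prime_degree hn G htr (no_two_transitive hk hkn T hT)
  obtain ⟨D, hD, ⟨B, hB⟩, hle, hinv⟩ :=
    centre_carrier (by omega : 0 < k) (by omega : k < n) T hT
  exact ⟨⟨ρ, haff⟩,
    affine_card hn (by omega) (by omega) G ρ hτ haff D hle hinv B hB (hD.card B hB)⟩

/-- The necessary condition. Let `T` be a `G`-invariant lattice triangulation of the hypersimplex of `(k, n)`, and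
let `O`, `Z` be disjoint sets of coordinates, `|O| = p` prime and `2 ≤ k - |Z| ≤ p - 2`. If the group
`H` induced on `O` by the elements of `G` that leave `O` and `Z` invariant is transitive on `O`, then
`H` consists of affine maps of the field with `p` elements, for some labelling of `O` by that field,
and its order divides `p (k - |Z|)` or `p (k - |Z| - 1)`. -/
theorem necessary (k n p : ℕ) (hp : p.Prime) (G : Subgroup (Equiv.Perm (Fin n)))
    (T : LatticeTriangulation k n) (hT : Invariant G T) (O Z : Finset (Fin n))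
    (hOZ : Disjoint O Z) (hO : O.card = p) (h1 : Z.card + 2 ≤ k) (h2 : k + 2 ≤ Z.card + p)
    (htr : ∀ x y : O, ∃ τ ∈ induced G O Z, τ x = y) :
    (∃ ρ : O ≃ ZMod p, ∀ τ ∈ induced G O Z, ∃ a b : ZMod p, ∀ x, ρ (τ x) = a * ρ x + b) ∧
      (Nat.card (induced G O Z) ∣ p * (k - Z.card) ∨
        Nat.card (induced G O Z) ∣ p * (k - Z.card - 1)) := by
  classical
  let ε : Fin p ≃ O := (Finset.equivFinOfCardEq hO).symm
  obtain ⟨T', hT'⟩ := induced_tri T hT O Z hOZ (by omega) ε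
  set G' := (induced G O Z).comap (ε.permCongrHom.toMonoidHom) with hG'
  have hmem : ∀ τ : Equiv.Perm O, τ ∈ induced G O Z → ε.permCongrHom.symm τ ∈ G' := by
    intro τ hτ
    rw [hG', Subgroup.mem_comap]
    have h5 : ε.permCongrHom (ε.permCongrHom.symm τ) = τ := MulEquiv.apply_symm_apply _ _
    change ε.permCongrHom (ε.permCongrHom.symm τ) ∈ _
    rw [h5]
    exact hτ
  have hval : ∀ (τ : Equiv.Perm O) (i : Fin p), (ε.permCongrHom.symm τ) i = ε.symm (τ (ε i)) :=
    fun τ i => rfl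
  have htr' : MulAction.IsPretransitive G' (Fin p) := by
    constructor
    intro x y
    obtain ⟨τ, hτ, h3⟩ := htr (ε x) (ε y)
    refine ⟨⟨ε.permCongrHom.symm τ, hmem τ hτ⟩, ?_⟩
    change (ε.permCongrHom.symm τ) x = y
    rw [hval, h3]
    simp
  obtain ⟨⟨ρ, hρ⟩, hdvd⟩ := prime_case (by omega) (by omega) hp T' hT' htr'
  have hcard : Nat.card G' = Nat.card (induced G O Z) := by
    refine Nat.card_congr (Equiv.ofBijective
      (fun g : G' => (⟨ε.permCongrHom g.1, g.2⟩ : induced G O Z)) ⟨?_, ?_⟩)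
    · intro g g' h
      have h5 := congrArg Subtype.val h
      exact Subtype.ext (ε.permCongrHom.injective h5)
    · rintro ⟨τ, hτ⟩
      refine ⟨⟨ε.permCongrHom.symm τ, hmem τ hτ⟩, ?_⟩
      apply Subtype.ext
      exact MulEquiv.apply_symm_apply _ _
  refine ⟨⟨ε.symm.trans ρ, ?_⟩, ?_⟩
  · intro τ hτ
    obtain ⟨a, b, hab⟩ := hρ _ (hmem τ hτ)
    refine ⟨a, b, ?_⟩
    intro x
    have h6 := hab (ε.symm x)
    rw [hval] at h6
    simpa using h6
  · rw [← hcard]
    exact hdvd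

/-- The slope of an affine element of `G` has a small order. -/
theorem slope_sq {k p : ℕ} (hp : p.Prime) (hk : 2 ≤ k)
    (hm : ∀ m, m ∣ p - 1 → (m ∣ k ∨ m ∣ k - 1) → m ≤ 2) (G : Subgroup (Equiv.Perm (Fin p)))
    (hcard : Nat.card G ∣ p * k ∨ Nat.card G ∣ p * (k - 1)) (ρ : Fin p ≃ ZMod p)
    (σ : Equiv.Perm (Fin p)) (hσ : σ ∈ G) (a b : ZMod p) (hab : ∀ i, ρ (σ i) = a * ρ i + b) :
    a = 1 ∨ a = -1 := by
  have : Fact p.Prime := ⟨hp⟩
  have ha : a ≠ 0 := by
    intro h0
    have h1 := hab (ρ.symm 0)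
    have h2 := hab (ρ.symm 1)
    rw [h0, zero_mul, zero_add] at h1 h2
    have h3 : (ρ.symm 0 : Fin p) = ρ.symm 1 := σ.injective (ρ.injective (h1.trans h2.symm))
    exact zero_ne_one (ρ.symm.injective h3)
  -- powers
  have hpow : ∀ j : ℕ, ∃ c : ZMod p, ∀ i, ρ ((σ ^ j) i) = a ^ j * ρ i + c := by
    intro j
    induction j with
    | zero => exact ⟨0, fun i => by simp⟩
    | succ j ih =>
      obtain ⟨c, hc⟩ := ih
      refine ⟨a * c + b, fun i => ?_⟩
      rw [pow_succ', Equiv.Perm.mul_apply, hab, hc]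
      ring
  obtain ⟨c, hc⟩ := hpow (orderOf σ)
  rw [pow_orderOf_eq_one] at hc
  have h1 := hc (ρ.symm 0)
  have h2 := hc (ρ.symm 1)
  simp only [Equiv.Perm.coe_one, id_eq, Equiv.apply_symm_apply, mul_zero, zero_add, mul_one]
    at h1 h2
  have h3 : a ^ (orderOf σ) = 1 := by
    rw [← h1, add_zero] at h2
    exact h2.symm
  have hd1 : orderOf a ∣ orderOf σ := orderOf_dvd_of_pow_eq_one h3
  have hd2 : orderOf σ ∣ Nat.card G := by
    have h4 := orderOf_dvd_natCard (⟨σ, hσ⟩ : G)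
    rwa [Subgroup.orderOf_mk] at h4
  have hd3 : orderOf a ∣ p - 1 := orderOf_dvd_of_pow_eq_one (ZMod.pow_card_sub_one_eq_one ha)
  have hcop : Nat.Coprime (orderOf a) p := by
    rw [Nat.coprime_comm, Nat.Prime.coprime_iff_not_dvd hp]
    intro h5
    have h6 := Nat.le_of_dvd (by have := hp.two_le; omega) (h5.trans hd3)
    have := hp.two_le
    omega
  have hle : orderOf a ≤ 2 := by
    refine hm _ hd3 ?_
    rcases hcard with h | h
    · exact Or.inl (hcop.dvd_of_dvd_mul_left ((hd1.trans hd2).trans h))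
    · exact Or.inr (hcop.dvd_of_dvd_mul_left ((hd1.trans hd2).trans h))
  have hpos : 0 < orderOf a := by
    apply Nat.pos_of_dvd_of_pos hd3
    have := hp.two_le
    omega
  have hsq : a ^ 2 = 1 := by
    have h7 : orderOf a ∣ 2 := by
      interval_cases h8 : orderOf a
      · exact one_dvd 2
      · exact dvd_refl 2
    exact orderOf_dvd_iff_pow_eq_one.1 h7
  have h9 : (a - 1) * (a + 1) = 0 := by linear_combination hsq
  rcases mul_eq_zero.1 h9 with h | h
  · exact Or.inl (sub_eq_zero.1 h)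
  · exact Or.inr (eq_neg_of_add_eq_zero_left h)

/-- Transitive affine groups with slopes `1` and `-1` are conjugate into the dihedral group. -/
theorem into_dihedral {p : ℕ} (hp : p.Prime) (hp3 : 3 ≤ p) (G : Subgroup (Equiv.Perm (Fin p)))
    (ρ : Fin p ≃ ZMod p) (hslope : ∀ σ ∈ G, ∃ a b : ZMod p, (a = 1 ∨ a = -1) ∧
      ∀ i, ρ (σ i) = a * ρ i + b) :
    ∃ ρ' : Equiv.Perm (Fin p), ∀ σ ∈ G, ρ' * σ * ρ'⁻¹ ∈ dihedral p := by
  have : Fact p.Prime := ⟨hp⟩
  -- the translation by one and the negation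
  let r : Equiv.Perm (Fin p) := (ρ.trans (Equiv.addRight 1)).trans ρ.symm
  let t : Equiv.Perm (Fin p) := (ρ.trans (Equiv.neg _)).trans ρ.symm
  have hr1 : ∀ i, ρ (r i) = ρ i + 1 := fun i => by simp [r]
  have ht1 : ∀ i, ρ (t i) = - ρ i := fun i => by simp [t]
  have hrn : ∀ (j : ℕ) i, ρ ((r ^ j) i) = ρ i + j := by
    intro j
    induction j with
    | zero => intro i; simp
    | succ j ih =>
      intro i
      rw [pow_succ', Equiv.Perm.mul_apply, hr1, ih]
      push_cast
      ring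
  have htrans : ∀ y, ∃ i : ℤ, (r ^ i) (ρ.symm 0) = y := by
    intro y
    refine ⟨((ρ y).val : ℤ), ?_⟩
    rw [zpow_natCast]
    apply ρ.injective
    rw [hrn]
    simp
  have hrp : r ^ p = 1 := by
    ext i
    congr 1
    apply ρ.injective
    rw [hrn]
    simp
  have ht0 : t (ρ.symm 0) = ρ.symm 0 := by
    apply ρ.injective
    rw [ht1]
    simp
  have htr : t * r * t⁻¹ = r⁻¹ := by
    rw [mul_inv_eq_iff_eq_mul, eq_inv_mul_iff_mul_eq]
    ext i
    congr 1
    apply ρ.injective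
    rw [Equiv.Perm.mul_apply, hr1, Equiv.Perm.mul_apply, ht1, hr1, ht1]
    ring
  obtain ⟨ρ', h1, h2⟩ := conj_dihedral hp3 r (ρ.symm 0) htrans hrp
  refine ⟨ρ', ?_⟩
  intro σ hσ
  obtain ⟨a, b, ha, hab⟩ := hslope σ hσ
  rcases ha with rfl | rfl
  · have h3 : σ = r ^ ((b.val : ℕ) : ℤ) := by
      rw [zpow_natCast]
      ext i
      congr 1
      apply ρ.injective
      rw [hab, hrn]
      simp
    rw [h3]
    exact h1 _
  · have h3 : σ = r ^ ((b.val : ℕ) : ℤ) * t := by
      rw [zpow_natCast]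
      ext i
      congr 1
      apply ρ.injective
      rw [hab, Equiv.Perm.mul_apply, hrn, ht1]
      simp
    rw [h3]
    have h4 := (dihedral p).mul_mem (h1 ((b.val : ℕ) : ℤ)) (h2 t ht0 htr)
    have h5 : ρ' * r ^ ((b.val : ℕ) : ℤ) * ρ'⁻¹ * (ρ' * t * ρ'⁻¹) =
        ρ' * (r ^ ((b.val : ℕ) : ℤ) * t) * ρ'⁻¹ := by group
    rw [h5] at h4
    exact h4

/-- **Theorem.** (1) Let `T` be a `G`-invariant lattice triangulation of the hypersimplex of `(k, n)`,
and let `O`, `Z` be disjoint sets of coordinates, `|O| = p` prime and `2 ≤ k - |Z| ≤ p - 2`. If the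
group `H` induced on `O` by the elements of `G` that leave `O` and `Z` invariant is transitive on `O`,
then `H` consists of affine maps of the field with `p` elements, for some labelling of `O` by that
field, and its order divides `p (k - |Z|)` or `p (k - |Z| - 1)`.
(2) Let `p` be prime, `2 ≤ k ≤ p - 2`, and suppose that no number `m > 2` divides both `p - 1` and one
of `k`, `k - 1`. Then a transitive group `G` of degree `p` has an invariant lattice triangulation of
the hypersimplex of `(k, p)` if and only if it is conjugate to a subgroup of the dihedral group. -/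
theorem result :
    (∀ (k n p : ℕ), p.Prime → ∀ G : Subgroup (Equiv.Perm (Fin n)),
      (∃ T : LatticeTriangulation k n, Invariant G T) → ∀ O Z : Finset (Fin n), Disjoint O Z →
      O.card = p → Z.card + 2 ≤ k → k + 2 ≤ Z.card + p →
      (∀ x y : O, ∃ τ ∈ induced G O Z, τ x = y) →
      (∃ ρ : O ≃ ZMod p, ∀ τ ∈ induced G O Z, ∃ a b : ZMod p, ∀ x, ρ (τ x) = a * ρ x + b) ∧
        (Nat.card (induced G O Z) ∣ p * (k - Z.card) ∨
          Nat.card (induced G O Z) ∣ p * (k - Z.card - 1))) ∧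
    (∀ (k p : ℕ), p.Prime → 2 ≤ k → k + 2 ≤ p →
      (∀ m, m ∣ p - 1 → (m ∣ k ∨ m ∣ k - 1) → m ≤ 2) →
      ∀ G : Subgroup (Equiv.Perm (Fin p)), MulAction.IsPretransitive G (Fin p) →
      ((∃ T : LatticeTriangulation k p, Invariant G T) ↔
        ∃ ρ : Equiv.Perm (Fin p), ∀ σ ∈ G, ρ * σ * ρ⁻¹ ∈ dihedral p)) := by
  refine ⟨?_, ?_⟩
  · rintro k n p hp G ⟨T, hT⟩ O Z hOZ hO h1 h2 htr
    exact necessary k n p hp G T hT O Z hOZ hO h1 h2 htr
  · intro k p hp hk hkp hm G htr
    constructor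
    · rintro ⟨T, hT⟩
      obtain ⟨⟨ρ, hρ⟩, hcard⟩ := prime_case hk hkp hp T hT htr
      refine into_dihedral hp (by omega) G ρ ?_
      intro σ hσ
      obtain ⟨a, b, hab⟩ := hρ σ hσ
      exact ⟨a, b, slope_sq hp hk hm G hcard ρ σ hσ a b hab, hab⟩
    · rintro ⟨ρ, hρ⟩
      obtain ⟨T, hT⟩ := alcoved_exists k p
      exact exists_conj T hT ρ hρ

end Pool.Agent.Results.MP_079fc8_co.PrimeDegree
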