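import Pool.Agent.Lib.HyS.Loc
import Pool.Agent.Lib.HyS.Conj
import Pool.Agent.Lib.HyS.Dual
import Pool.Agent.Lib.HyS.PrA
import Pool.Agent.Lib.HyS.PrB
import Pool.Agent.Lib.HyS.PrC
import Pool.Agent.Lib.HyS.PrD
import Pool.Agent.Lib.HyS.PrE
import Pool.Agent.Lib.HyS.Alc
import Pool.Agent.Lib.HyA.Ab2
import Pool.Agent.Lib.HyN.Trans
import Pool.Agent.Lib.HyN.OddDih
import Pool.Agent.Lib.HyN.Inv

/-!
# MP_079fc8_co: a criterion for invariant lattice triangulations of the second hypersimplex
-/

namespace Pool.Agent.Results.MP_079fc8_co.StabiliserCriterion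

open Pool.Agent.Lib.HyS

/-- All orbits of all point stabilisers of `G` have length at most two. -/
def SmallStabiliserOrbits {n : ℕ} (G : Subgroup (Equiv.Perm (Fin n))) : Prop :=
  ∀ x y : Fin n, ∀ σ ∈ G, ∀ τ ∈ G, σ x = x → τ x = x → (σ y = y ∨ τ y = y ∨ σ y = τ y)

/-- The subgroup generated by all point stabilisers of `G`. -/
def stabilisersSpan {n : ℕ} (G : Subgroup (Equiv.Perm (Fin n))) : Subgroup (Equiv.Perm (Fin n)) :=
  Subgroup.closure {σ | σ ∈ G ∧ ∃ x, σ x = x}

/-- Necessity, for all groups. -/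
theorem necessary {n : ℕ} {G : Subgroup (Equiv.Perm (Fin n))}
    (T : LatticeTriangulation 2 n) (hT : Invariant G T) : SmallStabiliserOrbits G := by
  intro x y σ hσ τ hτ hσx hτx
  by_cases hxy : y = x
  · left
    rw [hxy, hσx]
  · exact local_low T hT ∅ (by simp) x y (by simp) (by simp) hxy σ τ hσ hτ hσx hτx
      (by simp) (by simp)

/-- Primitive groups satisfying the condition. -/
theorem primitive_dihedral {n : ℕ} (hn : 4 ≤ n) {G : Subgroup (Equiv.Perm (Fin n))}
    (hloc : SmallStabiliserOrbits G) (hprim : MulAction.IsPreprimitive G (Fin n)) :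
    n.Prime ∧ ∃ ρ : Equiv.Perm (Fin n), ∀ σ ∈ G, ρ * σ * ρ⁻¹ ∈ dihedral n := by
  have hstab := stab_le_two (by omega) G hprim hloc
  by_cases hreg : ∀ x : Fin n, ∀ σ ∈ G, σ x = x → σ = 1
  · obtain ⟨hp, r, x, hr, hrn, hG⟩ := regular_prime (by omega) G hprim hreg
    obtain ⟨ρ, hρ, _⟩ := conj_dihedral (by omega) r x hr hrn
    refine ⟨hp, ρ, ?_⟩
    intro σ hσ
    obtain ⟨i, rfl⟩ := hG σ hσ
    exact hρ i
  · push Not at hreg
    obtain ⟨x, σ, hσ, hσx, hσ1⟩ := hreg
    obtain ⟨r, t, hrG, htG, hr1, htx, htt, htr, hG⟩ :=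
      dihedral_gen (by omega) G hprim hstab x σ hσ hσx hσ1
    obtain ⟨hp, hr, hrn⟩ :=
      dihedral_prime (by omega) G hprim x r t hrG htG hr1 htx htt htr hG
    obtain ⟨ρ, hρ, hρt⟩ := conj_dihedral (by omega) r x hr hrn
    refine ⟨hp, ρ, ?_⟩
    intro τ hτ
    obtain ⟨i, rfl | rfl⟩ := hG τ hτ
    · exact hρ i
    · have h1 := (dihedral n).mul_mem (hρ i) (hρt t htx htr)
      have h2 : ρ * r ^ i * ρ⁻¹ * (ρ * t * ρ⁻¹) = ρ * (r ^ i * t) * ρ⁻¹ := by group
      rw [h2] at h1
      exact h1

/-- The duality `x ↦ 1 - x`. -/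
theorem dual_iff {k n : ℕ} (hk : k ≤ n) (G : Subgroup (Equiv.Perm (Fin n))) :
    (∃ T : LatticeTriangulation k n, Invariant G T) ↔
      ∃ T : LatticeTriangulation (n - k) n, Invariant G T := by
  constructor
  · rintro ⟨T, hT⟩
    exact exists_dual hk T hT
  · rintro ⟨T, hT⟩
    have h := exists_dual (Nat.sub_le n k) T hT
    rwa [Nat.sub_sub_self hk] at h

/-- The elements of the point stabilisers are involutions. -/
theorem square_one {n : ℕ} {G : Subgroup (Equiv.Perm (Fin n))} (hloc : SmallStabiliserOrbits G)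
    (σ : Equiv.Perm (Fin n)) (hσ : σ ∈ G) (x : Fin n) (hx : σ x = x) : σ * σ = 1 := by
  ext y
  have h := hloc x y σ hσ (σ * σ) (G.mul_mem hσ hσ) hx
    (by rw [Equiv.Perm.mul_apply, hx, hx])
  rw [Equiv.Perm.mul_apply] at h ⊢
  rw [Equiv.Perm.one_apply]
  rcases h with h | h | h
  · rw [h, h]
  · rw [h]
  · have h2 : σ y = y := (σ.injective h).symm
    rw [h2, h2]

/-- In a group of odd order the condition says that the point stabilisers are trivial. -/
theorem odd_span {n : ℕ} {G : Subgroup (Equiv.Perm (Fin n))} (hodd : Odd (Nat.card G))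
    (hloc : SmallStabiliserOrbits G) : stabilisersSpan G = ⊥ := by
  rw [eq_bot_iff, stabilisersSpan, Subgroup.closure_le]
  rintro σ ⟨hσ, x, hx⟩
  have hsq := square_one hloc σ hσ x hx
  have h1 : orderOf σ ∣ 2 := orderOf_dvd_of_pow_eq_one (by rw [pow_two, hsq])
  have h2 : orderOf σ ∣ Nat.card G := by
    have h4 := orderOf_dvd_natCard (⟨σ, hσ⟩ : G)
    rwa [Subgroup.orderOf_mk] at h4
  have h3 : orderOf σ = 1 := by
    rcases (Nat.dvd_prime Nat.prime_two).1 h1 with h | h
    · exact h
    · rw [h] at h2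
      exact absurd hodd (by rw [Nat.not_odd_iff_even]; exact even_iff_two_dvd.2 h2)
  exact orderOf_eq_one_iff.1 h3

/-- A group all of whose elements are involutions is commutative. -/
theorem comm_of_square {n : ℕ} {G : Subgroup (Equiv.Perm (Fin n))}
    (h : ∀ σ ∈ G, σ * σ = 1) : ∀ a ∈ G, ∀ b ∈ G, a * b = b * a := by
  intro a ha b hb
  have h1 := h _ (G.mul_mem ha hb)
  have h2 := h a ha
  have h3 := h b hb
  calc a * b = a * b * (a * b) * (a * b)⁻¹ := by group
    _ = (a * b)⁻¹ := by rw [h1, one_mul]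
    _ = b⁻¹ * a⁻¹ := by rw [mul_inv_rev]
    _ = b * a := by
      rw [inv_eq_of_mul_eq_one_left h2, inv_eq_of_mul_eq_one_left h3]

/-- Sufficiency. -/
theorem sufficient {n : ℕ} (hn : 4 ≤ n) (G : Subgroup (Equiv.Perm (Fin n)))
    (hG : MulAction.IsPreprimitive G (Fin n) ∨ (∃ x, ∀ σ ∈ G, σ x = x) ∨
      (Group.IsSolvable G ∧ Odd (Nat.card G)) ∨
      (Group.IsSolvable G ∧
        ∀ a ∈ stabilisersSpan G, ∀ b ∈ stabilisersSpan G, a * b = b * a))
    (hloc : SmallStabiliserOrbits G) : ∃ T : LatticeTriangulation 2 n, Invariant G T := by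
  rcases hG with hprim | ⟨x, hx⟩ | ⟨hsol, hodd⟩ | ⟨hsol, hab⟩
  · obtain ⟨-, ρ, hρ⟩ := primitive_dihedral hn hloc hprim
    obtain ⟨T, hT⟩ := alcoved_exists 2 n
    exact exists_conj T hT ρ hρ
  · have hcomm := comm_of_square (G := G) fun σ hσ => square_one hloc σ hσ x (hx σ hσ)
    refine abelian_exists G hcomm hloc
  · refine stab_abelian_exists G hsol ?_ hloc
    have hbot := odd_span hodd hloc
    rw [stabilisersSpan] at hbot
    rw [hbot]
    intro a ha b _
    rw [Subgroup.mem_bot] at ha
    rw [ha, one_mul, mul_one]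
  · exact stab_abelian_exists G hsol hab hloc

/-- **Theorem.** Let `n ≥ 4` and let `k = 2` or `k = n - 2`.

(a) Let `G` be primitive, or have a fixed point, or be solvable of odd order, or be solvable and such
that the subgroup generated by all point stabilisers is abelian.  Then the hypersimplex of `(k, n)` has
a `G`-invariant lattice triangulation if and only if all orbits of all point stabilisers of `G` have
length at most two; for primitive `G` this means that `n` is prime and `G` is conjugate to a subgroup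
of the dihedral group.

(b) Let `G` be transitive and such that some point stabiliser fixes only one point.  Then there is a
`G`-invariant lattice triangulation if and only if `G` is conjugate to a subgroup of the dihedral
group.

(c) For every `G`: if there is a `G`-invariant lattice triangulation then every abelian subgroup of odd
order of `G` which is inverted by an element of `G` with a fixed point is cyclic.  The condition in
(a) is not sufficient for all `G`: for every noncyclic abelian group of odd order `n` it holds for the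
group of all maps `v ↦ b + v` and `v ↦ b - v`, but no group which contains this group has an
invariant lattice triangulation. -/
theorem result (k n : ℕ) (hn : 4 ≤ n) (hk : k = 2 ∨ k + 2 = n) :
    (∀ G : Subgroup (Equiv.Perm (Fin n)),
      (MulAction.IsPreprimitive G (Fin n) ∨ (∃ x, ∀ σ ∈ G, σ x = x) ∨
        (Group.IsSolvable G ∧ Odd (Nat.card G)) ∨
        (Group.IsSolvable G ∧
          ∀ a ∈ stabilisersSpan G, ∀ b ∈ stabilisersSpan G, a * b = b * a)) →
      ((∃ T : LatticeTriangulation k n, Invariant G T) ↔ SmallStabiliserOrbits G) ∧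
      (MulAction.IsPreprimitive G (Fin n) → (SmallStabiliserOrbits G ↔
        (n.Prime ∧ ∃ ρ : Equiv.Perm (Fin n), ∀ σ ∈ G, ρ * σ * ρ⁻¹ ∈ dihedral n)))) ∧
    (∀ G : Subgroup (Equiv.Perm (Fin n)), MulAction.IsPretransitive G (Fin n) →
      (∃ x : Fin n, ∀ y : Fin n, (∀ σ ∈ G, σ x = x → σ y = y) → y = x) →
      ((∃ T : LatticeTriangulation k n, Invariant G T) ↔
        ∃ ρ : Equiv.Perm (Fin n), ∀ σ ∈ G, ρ * σ * ρ⁻¹ ∈ dihedral n)) ∧
    (∀ G : Subgroup (Equiv.Perm (Fin n)), (∃ T : LatticeTriangulation k n, Invariant G T) →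
      ∀ A : Subgroup (Equiv.Perm (Fin n)), A ≤ G → (∀ a ∈ A, ∀ b ∈ A, a * b = b * a) →
      Odd (Nat.card A) → (∃ t ∈ G, (∃ x, t x = x) ∧ ∀ a ∈ A, t * a * t⁻¹ = a⁻¹) → IsCyclic A) ∧
    (∀ (V : Type) (_ : AddCommGroup V) (ρ : Fin n ≃ V), Odd n → ¬ IsAddCyclic V →
      SmallStabiliserOrbits (generalizedDihedral ρ) ∧
      ∀ G : Subgroup (Equiv.Perm (Fin n)), generalizedDihedral ρ ≤ G →
        ¬ ∃ T : LatticeTriangulation k n, Invariant G T) := by
  refine ⟨?_, ?_, ?_, ?_⟩
  · intro G hG
    have htwo : (∃ T : LatticeTriangulation k n, Invariant G T) ↔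
        ∃ T : LatticeTriangulation 2 n, Invariant G T := by
      rcases hk with rfl | hk
      · exact Iff.rfl
      · have h := dual_iff (show k ≤ n by omega) G
        rwa [show n - k = 2 by omega] at h
    refine ⟨?_, ?_⟩
    · rw [htwo]
      constructor
      · rintro ⟨T, hT⟩
        exact necessary T hT
      · exact sufficient hn G hG
    · intro hprim
      constructor
      · intro hloc
        exact primitive_dihedral hn hloc hprim
      · rintro ⟨-, ρ, hρ⟩
        obtain ⟨T, hT⟩ := alcoved_exists 2 n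
        obtain ⟨T', hT'⟩ := exists_conj T hT ρ hρ
        exact necessary T' hT'
  · rintro G htr ⟨x, hx⟩
    exact transitive_iff hn hk G htr x hx
  · rintro G hT A hA hcomm hodd ⟨t, ht, ⟨x, hx⟩, hinv⟩
    exact inverted_cyclic hk G hT t ht x hx A hA hcomm hodd hinv
  · intro V _ ρ hodd hcyc
    refine ⟨gd_small ρ, fun G hG => no_triangulation_odd hk ?_ hcyc ρ G hG⟩
    intro v hv
    have hcard : Nat.card V = n := by
      rw [← Nat.card_congr ρ, Nat.card_eq_fintype_card, Fintype.card_fin]
    have h1 : addOrderOf v ∣ 2 := addOrderOf_dvd_of_nsmul_eq_zero (by rw [two_nsmul, hv])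
    have h2 : addOrderOf v ∣ n := by
      rw [← hcard]
      exact addOrderOf_dvd_natCard v
    have h3 : addOrderOf v = 1 := by
      rcases (Nat.dvd_prime Nat.prime_two).1 h1 with h | h
      · exact h
      · rw [h] at h2
        exact absurd hodd (by rw [Nat.not_odd_iff_even]; exact even_iff_two_dvd.2 h2)
    exact AddMonoid.addOrderOf_eq_one_iff.1 h3

end Pool.Agent.Results.MP_079fc8_co.StabiliserCriterion
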