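import Pool.Agent.Lib.MP_079fc8_co.Bridge

/-!
MP_079fc8_co.  Doubly transitive groups and lattice triangulations of hypersimplices.

The proof looks at the smallest simplex of the triangulation which contains the barycentre of a face
of the hypersimplex: its vertices form a block design on which the group acts, and the neighbours of
a block meet the convex hull of the others.
-/

set_option autoImplicit false

namespace Pool.Agent.Results.MP_079fc8_co.TwoTransitive

open Finset

/-- The hypersimplex: the points of the unit cube whose coordinates have sum `k`. -/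
def hypersimplex (k n : ℕ) : Set (Fin n → ℝ) :=
  {x | (∀ i, 0 ≤ x i ∧ x i ≤ 1) ∧ ∑ i, x i = (k : ℝ)}

/-- The action of a permutation of the indices on points: the `i`-th unit vector goes to the
`σ i`-th unit vector. -/
def permute {n : ℕ} (σ : Equiv.Perm (Fin n)) (x : Fin n → ℝ) : Fin n → ℝ :=
  fun i => x (σ.symm i)

/-- A lattice triangulation of the hypersimplex: a geometric simplicial complex (any two simplices
meet in the convex hull of their common vertices) whose simplices have integral vertices and whose
union is the hypersimplex. -/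
def IsLatticeTriangulation (k n : ℕ) (K : Geometry.SimplicialComplex ℝ (Fin n → ℝ)) : Prop :=
  K.space = hypersimplex k n ∧ ∀ s ∈ K.faces, ∀ x ∈ s, ∀ i, ∃ m : ℤ, x i = m

/-- Invariance of a triangulation: each permutation in `G` maps simplices to simplices. -/
def Invariant {n : ℕ} (G : Subgroup (Equiv.Perm (Fin n)))
    (K : Geometry.SimplicialComplex ℝ (Fin n → ℝ)) : Prop :=
  ∀ σ ∈ G, ∀ s ∈ K.faces, s.image (permute σ) ∈ K.faces

/-- The hypersimplex has a lattice triangulation invariant under `G`. -/
def HasInvariantTriangulation (k n : ℕ) (G : Subgroup (Equiv.Perm (Fin n))) : Prop :=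
  ∃ K : Geometry.SimplicialComplex ℝ (Fin n → ℝ), IsLatticeTriangulation k n K ∧ Invariant G K

/-- The permutations in `G` which leave the two sets `X` and `I` invariant. -/
def stab {n : ℕ} (G : Subgroup (Equiv.Perm (Fin n))) (X I : Finset (Fin n)) :
    Set (Equiv.Perm (Fin n)) :=
  {g | g ∈ G ∧ (∀ i, g i ∈ X ↔ i ∈ X) ∧ ∀ i, g i ∈ I ↔ i ∈ I}

/-- Any ordered pair of distinct points of `X` is mapped to any other by some element of `S`. -/
def TwoTransitiveOn {n : ℕ} (S : Set (Equiv.Perm (Fin n))) (X : Finset (Fin n)) : Prop :=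
  ∀ a ∈ X, ∀ b ∈ X, ∀ c ∈ X, ∀ d ∈ X, a ≠ b → c ≠ d → ∃ g ∈ S, g a = c ∧ g b = d

/-- Any two-element subset of `X` is mapped to any other by some element of `S`. -/
def TwoHomogeneousOn {n : ℕ} (S : Set (Equiv.Perm (Fin n))) (X : Finset (Fin n)) : Prop :=
  ∀ a ∈ X, ∀ b ∈ X, ∀ c ∈ X, ∀ d ∈ X, a ≠ b → c ≠ d →
    ∃ g ∈ S, (g a = c ∧ g b = d) ∨ (g a = d ∧ g b = c)

/-- Suppose that the hypersimplex has a lattice triangulation invariant under `G`. Let `X` and `I`
be disjoint sets of indices, `|I| + j = k` and `2 ≤ j ≤ |X| - 2` (they correspond to the faces of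
the hypersimplex which are not simplices). Then the elements of `G` leaving `X` and `I` invariant
do not act doubly transitively on `X`; and if they act transitively on the two-element subsets of
`X`, then `|X| - 1` divides `j * (j - 1)`.

In particular (second part, the case `X = [n]`) a subgroup `G` of the symmetric group which is
doubly transitive leaves no lattice triangulation of the hypersimplex invariant if
`2 ≤ k ≤ n - 2`. -/
theorem result :
    (∀ (n k : ℕ) (G : Subgroup (Equiv.Perm (Fin n))), HasInvariantTriangulation k n G →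
      ∀ (X I : Finset (Fin n)) (j : ℕ), Disjoint X I → I.card + j = k → 2 ≤ j → j + 2 ≤ X.card →
        ¬ TwoTransitiveOn (stab G X I) X ∧
        (TwoHomogeneousOn (stab G X I) X → X.card - 1 ∣ j * (j - 1))) ∧
    (∀ (n k : ℕ) (G : Subgroup (Equiv.Perm (Fin n))), 2 ≤ k → k + 2 ≤ n →
      TwoTransitiveOn (G : Set (Equiv.Perm (Fin n))) Finset.univ →
        ¬ HasInvariantTriangulation k n G) := by
  have main : ∀ (n k : ℕ) (G : Subgroup (Equiv.Perm (Fin n))), HasInvariantTriangulation k n G →
      ∀ (X I : Finset (Fin n)) (j : ℕ), Disjoint X I → I.card + j = k → 2 ≤ j → j + 2 ≤ X.card →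
        ¬ TwoTransitiveOn (stab G X I) X ∧
        (TwoHomogeneousOn (stab G X I) X → X.card - 1 ∣ j * (j - 1)) := by
    rintro n k G ⟨K, ⟨hsp, hint⟩, hinv⟩ X I j hXI hj h2 h3
    have hT := Lib.MP079fc8.tri_of (k := k) (by omega) (G : Set (Equiv.Perm (Fin n))) K hsp hint
      hinv
    exact ⟨fun h => Lib.MP079fc8.face_TT hT hXI hj h2 h3 h,
      fun h => Lib.MP079fc8.face_TH hT hXI hj h2 h3 h⟩
  refine ⟨main, fun n k G hk hkn hG hT => ?_⟩
  refine (main n k G hT Finset.univ ∅ k (disjoint_empty_right _) (by simp) hk
    (by simpa using hkn)).1 ?_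
  intro a ha b hb c hc d hd hab hcd
  obtain ⟨g, hg, h⟩ := hG a ha b hb c hc d hd hab hcd
  exact ⟨g, ⟨hg, fun i => by simp, fun i => by simp⟩, h⟩

end Pool.Agent.Results.MP_079fc8_co.TwoTransitive
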